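import Pool.Agent.Run7.h463.Section
import Pool.Agent.Run7.h463.Padded

/-!
# An automatic group without geodesic automatic structures

Definitions, from `Pool/Agent/Run7/h463/Padded.lean`, for a group `H` and a map `ι : α → H`:

* `Generates ι`: the image of `ι` generates `H` as a monoid;
* `ev ι w`: the element represented by the word `w`;
* `IsGeodesic ι w`: no shorter word represents the same element;
* `pad v w`: the two words read synchronously, the shorter one padded at its end;
* `IsAutomaticStructure ι L`: `L` is regular, maps onto `H`, and for `x = 1` and for every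
  `x = ι a` the padded pairs `(v, w)` of words of `L` with `v x = w` form a regular language;
* `IsAutomatic H`: `H` has an automatic structure over some finite monoid generating family.
-/

set_option autoImplicit false

namespace Pool.Agent.Results.MP_b803e5_al.NoRegularGeodesicSection

open Run7.h463.Padded

/-- There is an automatic group `G` such that, over no finite monoid generating family, a regular
language of geodesic words maps onto `G`. -/
theorem result : ∃ (G : Type) (_ : Group G), IsAutomatic G ∧
    ∀ (α : Type) [Finite α] (ι : α → G), Generates ι →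
      ¬ ∃ L : Language α, L.IsRegular ∧ (∀ g : G, ∃ w ∈ L, ev ι w = g) ∧
        ∀ w ∈ L, IsGeodesic ι w := by
  classical
  refine ⟨Run7.h463.G, inferInstance, ?_, ?_⟩
  · have hfin : ∀ K : ℕ, ∃ B : Finset Run7.h463.G, ∀ g, Run7.h463.wl Run7.h463.XX g ≤ K → g ∈ B := by
      intro K
      have hf : {l : List ({x // x ∈ Run7.h463.XX} × Bool) | l.length ≤ K}.Finite :=
        List.finite_length_le _ K
      refine ⟨hf.toFinset.image (Run7.h463.ev Run7.h463.XX), fun g hg => ?_⟩
      obtain ⟨w, hw1, hw2⟩ := Run7.h463.exists_geod _ Run7.h463.XX_closure g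
      exact Finset.mem_image.2 ⟨w, by simpa using (by omega : w.length ≤ K), hw2⟩
    have hreg : ∀ x : Run7.h463.G, (pairs Run7.h463.Lt.val Run7.h463.MM.accepts x).IsRegular := by
      intro x
      obtain ⟨K, hK⟩ := Run7.h463.ft_all Run7.h463.XX_LF x
      obtain ⟨B, hB⟩ := hfin K
      refine pairs_regular Run7.h463.MM Run7.h463.Lt.val x B
        (hB 1 (by rw [Run7.h463.wl_one]; exact Nat.zero_le _)) ?_
      intro v hv w hw hx t
      obtain ⟨c, hc, rfl⟩ := (Run7.h463.accept_iff v).1 hv
      obtain ⟨c', hc', rfl⟩ := (Run7.h463.accept_iff w).1 hw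
      refine hB _ (hK c c' hc hc' ?_ t)
      rw [← Run7.h463.Code.evL_wd, ← Run7.h463.Code.evL_wd]
      exact hx.symm
    refine ⟨Run7.h463.Lt, inferInstance, Run7.h463.Lt.val, ?_, Run7.h463.MM.accepts,
      ⟨Run7.h463.St, inferInstance, Run7.h463.MM, rfl⟩, ?_, hreg 1, fun a => hreg _⟩
    · rw [Generates, eq_top_iff]
      intro g _
      obtain ⟨c, hc, rfl⟩ := Run7.h463.exists_code Run7.h463.XX_LF g
      rw [← Run7.h463.Code.evL_wd]
      apply Submonoid.list_prod_mem
      intro x hx
      rw [List.mem_map] at hx
      obtain ⟨l, -, rfl⟩ := hx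
      exact Submonoid.subset_closure ⟨l, rfl⟩
    · intro g
      obtain ⟨c, hc, hg⟩ := Run7.h463.exists_code Run7.h463.XX_LF g
      exact ⟨c.wd, Run7.h463.eval_code c hc, by rw [← hg, ← Run7.h463.Code.evL_wd]; rfl⟩
  · rintro α hα ι hι ⟨L, ⟨σ, hσ, M, rfl⟩, hon, hge⟩
    haveI := Fintype.ofFinite α
    exact Run7.h463.no_geodesic_section ι hι M hon (fun w hw v hv => hge w hw v hv)

end Pool.Agent.Results.MP_b803e5_al.NoRegularGeodesicSection
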